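import Pool.Agent.H73.CBD.Stmts

set_option autoImplicit false

open Set Filter Topology

namespace Pool.CBD

private lemma sum_ratio {θ C : ℝ} (hθ : 0 < θ) (hθ2 : θ < 2) :
    Summable (fun k : ℕ => C * θ ^ k / 2 ^ (k + 1)) := by
  have h1 : Summable (fun k : ℕ => (θ / 2) ^ k) :=
    summable_geometric_of_lt_one (by positivity) (by linarith)
  have h2 : (fun k : ℕ => C * θ ^ k / 2 ^ (k + 1)) = fun k : ℕ => C / 2 * (θ / 2) ^ k := by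
    funext k
    rw [div_pow, pow_succ]
    field_simp
  rw [h2]
  exact h1.mul_left _

private lemma sum_Fsummable {θ C : ℝ} (hθ : 0 < θ) (hθ2 : θ < 2)
    (hF : ∀ (k : ℕ) (z : V), z ≠ 0 → ‖F k z‖ ≤ C * θ ^ k) (z : V) (hz : z ≠ 0) :
    Summable (fun k : ℕ => F k z / 2 ^ (k + 1)) := by
  refine Summable.of_norm_bounded (g := fun k : ℕ => C * θ ^ k / 2 ^ (k + 1))
    (sum_ratio hθ hθ2) ?_
  intro k
  rw [norm_div, norm_pow]
  have : ‖(2 : ℂ)‖ = 2 := by simp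
  rw [this]
  exact div_le_div_of_nonneg_right (hF k z hz) (by positivity)

private lemma sum_iter (hALG : ALGStmt) : ∀ (k : ℕ) (z : V), z ≠ 0 → f^[k] z ≠ 0 := by
  intro k
  induction k with
  | zero => intro z hz; simpa using hz
  | succ k ih =>
    intro z hz
    rw [Function.iterate_succ_apply]
    exact ih _ (hALG.2.2.2.2.2.2.2.1 z hz)

private lemma sum_main (hALG : ALGStmt) (hALH : ALHStmt) (hTRM : TRMStmt) (hUBD : UBDStmt)
    {θ C : ℝ} (hθ : 0 < θ) (hθ2 : θ < 2) (hC : 0 < C)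
    (hF : ∀ (k : ℕ) (z : V), z ≠ 0 → ‖F k z‖ ≤ C * θ ^ k) (z₀ : V) (hz₀ : z₀ ≠ 0) :
    DifferentiableAt ℝ S z₀ ∧
      (∀ v : V, fderiv ℝ S z₀ v = (Phi z₀ * P z₀ v).re / N z₀) := by
  obtain ⟨hN1, hN2, hP⟩ : (∀ z : V, ‖z‖ ^ 2 ≤ N z) ∧ (∀ z : V, N z ≤ 2 * ‖z‖ ^ 2) ∧
      (∀ z v : V, ‖P z v‖ ≤ 2 * ‖z‖ * ‖v‖) :=
    ⟨fun z => (hALH.2.2.1 z).1, fun z => (hALH.2.2.1 z).2, hALH.2.2.2.1⟩
  have hr : 0 < ‖z₀‖ := norm_pos_iff.mpr hz₀
  set s : Set V := Metric.ball z₀ (‖z₀‖ / 2) with hs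
  have hsz : ∀ y ∈ s, ‖z₀‖ / 2 ≤ ‖y‖ := by
    intro y hy
    rw [hs, Metric.mem_ball, dist_eq_norm] at hy
    have h1 : ‖z₀‖ ≤ ‖y‖ + ‖y - z₀‖ := by
      have : z₀ = y - (y - z₀) := by abel
      calc ‖z₀‖ = ‖y - (y - z₀)‖ := by rw [← this]
        _ ≤ ‖y‖ + ‖y - z₀‖ := norm_sub_le _ _
    linarith
  have hs0 : ∀ y ∈ s, y ≠ 0 := by
    intro y hy h0
    have := hsz y hy
    rw [h0, norm_zero] at this
    linarith
  have hmem : z₀ ∈ s := Metric.mem_ball_self (by positivity)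
  let g : ℕ → V → ℝ := fun k y => u (f^[k] y) / 2 ^ (k + 1)
  have hgf : ∀ k y, y ∈ s →
      HasFDerivAt (g k) ((2 ^ (k + 1) : ℝ)⁻¹ • fderiv ℝ (fun y => u (f^[k] y)) y) y := by
    intro k y hy
    have h1 := hTRM k y (hs0 y hy)
    have h3 := (h1.1.hasFDerivAt).const_smul ((2 ^ (k + 1) : ℝ)⁻¹)
    have h4 : g k = fun y => ((2 ^ (k + 1) : ℝ)⁻¹) • (fun y => u (f^[k] y)) y := by
      funext w
      simp only [g, smul_eq_mul]
      rw [div_eq_inv_mul]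
    rw [h4]
    exact h3
  have hgd : ∀ k y, y ∈ s → HasFDerivAt (g k) (fderiv ℝ (g k) y) y := by
    intro k y hy
    exact (hgf k y hy).differentiableAt.hasFDerivAt
  have hgv : ∀ k y, y ∈ s → ∀ v, fderiv ℝ (g k) y v =
      (F k y * P y v).re / N y / 2 ^ (k + 1) := by
    intro k y hy v
    have h1 := hTRM k y (hs0 y hy)
    rw [(hgf k y hy).fderiv]
    have h5 : ((2 ^ (k + 1) : ℝ)⁻¹ • fderiv ℝ (fun y => u (f^[k] y)) y) v =
        (2 ^ (k + 1) : ℝ)⁻¹ * (fderiv ℝ (fun y => u (f^[k] y)) y v) := rfl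
    rw [h5, h1.2 v, div_eq_inv_mul (_ / _)]
  have hNpos : ∀ y : V, y ≠ 0 → 0 < N y := hALG.2.2.2.2.2.2.1
  have hgb : ∀ k y, y ∈ s → ‖fderiv ℝ (g k) y‖ ≤ (4 / ‖z₀‖) * (C * θ ^ k / 2 ^ (k + 1)) := by
    intro k y hy
    refine ContinuousLinearMap.opNorm_le_bound _ (by positivity) ?_
    intro v
    rw [hgv k y hy v, Real.norm_eq_abs, abs_div, abs_div]
    have hy0 := hs0 y hy
    have hyn : 0 < ‖y‖ := norm_pos_iff.mpr hy0
    have hNy : 0 < N y := hNpos y hy0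
    rw [abs_of_pos hNy, abs_of_pos (by positivity : (0:ℝ) < 2 ^ (k + 1))]
    have h1 : |(F k y * P y v).re| ≤ C * θ ^ k * (2 * ‖y‖ * ‖v‖) := by
      calc |(F k y * P y v).re| ≤ ‖F k y * P y v‖ := Complex.abs_re_le_norm _
        _ = ‖F k y‖ * ‖P y v‖ := norm_mul _ _
        _ ≤ C * θ ^ k * (2 * ‖y‖ * ‖v‖) :=
          mul_le_mul (hF k y hy0) (hP y v) (norm_nonneg _) (by positivity)
    have h2 : |(F k y * P y v).re| / N y ≤ (4 / ‖z₀‖) * (C * θ ^ k) * ‖v‖ := by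
      rw [div_le_iff₀ hNy]
      have h3 : ‖y‖ ^ 2 ≤ N y := hN1 y
      have h4 : ‖z₀‖ / 2 ≤ ‖y‖ := hsz y hy
      have h5 : C * θ ^ k * (2 * ‖y‖ * ‖v‖) ≤ (4 / ‖z₀‖) * (C * θ ^ k) * ‖v‖ * ‖y‖ ^ 2 := by
        have h6 : 2 * ‖y‖ ≤ (4 / ‖z₀‖) * ‖y‖ ^ 2 := by
          rw [div_mul_eq_mul_div, le_div_iff₀ hr]
          nlinarith
        have h7 : 0 ≤ C * θ ^ k * ‖v‖ := by positivity
        nlinarith [mul_le_mul_of_nonneg_left h6 h7]
      have h8 : (4 / ‖z₀‖) * (C * θ ^ k) * ‖v‖ * ‖y‖ ^ 2 ≤ (4 / ‖z₀‖) * (C * θ ^ k) * ‖v‖ * N y :=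
        mul_le_mul_of_nonneg_left h3 (by positivity)
      linarith
    calc |(F k y * P y v).re| / N y / 2 ^ (k + 1)
        ≤ (4 / ‖z₀‖) * (C * θ ^ k) * ‖v‖ / 2 ^ (k + 1) :=
          div_le_div_of_nonneg_right h2 (by positivity)
      _ = (4 / ‖z₀‖) * (C * θ ^ k / 2 ^ (k + 1)) * ‖v‖ := by ring
  have hsum0 : Summable (fun k => g k z₀) := by
    have h1 : Summable (fun k : ℕ => Real.log 2 * 1 ^ k / 2 ^ (k + 1)) :=
      sum_ratio (by norm_num) (by norm_num)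
    refine Summable.of_nonneg_of_le ?_ ?_ h1
    · intro k
      have := (hUBD.1 _ (sum_iter hALG k z₀ hz₀)).1
      simp only [g]
      positivity
    · intro k
      have := (hUBD.1 _ (sum_iter hALG k z₀ hz₀)).2
      simp only [g, one_pow, mul_one]
      exact div_le_div_of_nonneg_right this (by positivity)
  have hub : Summable (fun k : ℕ => (4 / ‖z₀‖) * (C * θ ^ k / 2 ^ (k + 1))) :=
    (sum_ratio hθ hθ2).mul_left _
  have key : HasFDerivAt (fun y => ∑' k, g k y) (∑' k, fderiv ℝ (g k) z₀) z₀ :=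
    hasFDerivAt_tsum_of_isPreconnected hub Metric.isOpen_ball
      (convex_ball z₀ _).isPreconnected hgd hgb hmem hsum0 hmem
  have hS : S = fun y => ∑' k, g k y := rfl
  rw [hS]
  refine ⟨key.differentiableAt, ?_⟩
  intro v
  rw [key.fderiv]
  have hsm : Summable (fun k => fderiv ℝ (g k) z₀) :=
    Summable.of_norm_bounded hub (fun k => hgb k z₀ hmem)
  have h1 : HasSum (fun k => fderiv ℝ (g k) z₀ v) ((∑' k, fderiv ℝ (g k) z₀) v) :=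
    (ContinuousLinearMap.apply ℝ ℝ v).hasSum hsm.hasSum
  have h2 : HasSum (fun k : ℕ => F k z₀ / 2 ^ (k + 1)) (Phi z₀) :=
    (sum_Fsummable hθ hθ2 hF z₀ hz₀).hasSum
  have h3 : HasSum (fun k : ℕ => (F k z₀ / 2 ^ (k + 1) * P z₀ v).re) (Phi z₀ * P z₀ v).re :=
    Complex.hasSum_re (h2.mul_right _)
  have h4 := h3.div_const (N z₀)
  have h5 : (fun k : ℕ => (F k z₀ / 2 ^ (k + 1) * P z₀ v).re / N z₀) =
      fun k => fderiv ℝ (g k) z₀ v := by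
    funext k
    rw [hgv k z₀ hmem v]
    have h6 : F k z₀ / 2 ^ (k + 1) * P z₀ v = (F k z₀ * P z₀ v) / ((2 ^ (k + 1) : ℝ) : ℂ) := by
      push_cast
      ring
    rw [h6, Complex.div_ofReal_re]
    ring
  rw [h5] at h4
  exact h1.unique h4

theorem sum_thm (hALG : ALGStmt) (hALH : ALHStmt) (hTRM : TRMStmt) (hPRD : PRDStmt)
    (hUBD : UBDStmt) : SUMStmt := by
  obtain ⟨θ, C, hθ, hθ2, hC, hF⟩ := hPRD
  have hmain := sum_main hALG hALH hTRM hUBD hθ hθ2 hC hF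
  refine ⟨hmain, ?_⟩
  have hPhi : ∀ z : V, z ≠ 0 → ‖Phi z‖ ≤ ∑' k : ℕ, C * θ ^ k / 2 ^ (k + 1) := by
    intro z hz
    refine tsum_of_norm_bounded (sum_ratio hθ hθ2).hasSum ?_
    intro k
    rw [norm_div, norm_pow]
    have : ‖(2 : ℂ)‖ = 2 := by simp
    rw [this]
    exact div_le_div_of_nonneg_right (hF k z hz) (by positivity)
  set K : ℝ := ∑' k : ℕ, C * θ ^ k / 2 ^ (k + 1) with hK
  have hK0 : 0 ≤ K := tsum_nonneg (fun k => by positivity)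
  refine ⟨2 * K, ?_⟩
  intro z hz
  have hzn : 0 < ‖z‖ := norm_pos_iff.mpr hz
  refine ⟨by linarith [hPhi z hz], ?_⟩
  refine ContinuousLinearMap.opNorm_le_bound _ (by positivity) ?_
  intro v
  rw [(hmain z hz).2 v, Real.norm_eq_abs, abs_div]
  have hNz : 0 < N z := hALG.2.2.2.2.2.2.1 z hz
  rw [abs_of_pos hNz, div_le_iff₀ hNz]
  have h1 : |(Phi z * P z v).re| ≤ K * (2 * ‖z‖ * ‖v‖) := by
    calc |(Phi z * P z v).re| ≤ ‖Phi z * P z v‖ := Complex.abs_re_le_norm _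
      _ = ‖Phi z‖ * ‖P z v‖ := norm_mul _ _
      _ ≤ K * (2 * ‖z‖ * ‖v‖) :=
        mul_le_mul (hPhi z hz) (hALH.2.2.2.1 z v) (norm_nonneg _) hK0
  have h3 : ‖z‖ ^ 2 ≤ N z := (hALH.2.2.1 z).1
  have h4 : 2 * K / ‖z‖ * ‖v‖ * ‖z‖ ^ 2 ≤ 2 * K / ‖z‖ * ‖v‖ * N z :=
    mul_le_mul_of_nonneg_left h3 (by positivity)
  have h5 : 2 * K / ‖z‖ * ‖v‖ * ‖z‖ ^ 2 = K * (2 * ‖z‖ * ‖v‖) := by
    field_simp
  linarith

end Pool.CBD
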